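import Pool.Agent.H844R2.AG.Final

/-!
# The Arnold–Givental inequality fails for open symplectic manifolds

We construct a connected 4-dimensional symplectic manifold `M` with an anti-symplectic involution
`τ` whose fixed point set `L` is a 2-torus, and a Hamiltonian diffeomorphism `φ` of `M` with
`L ∩ φ(L) = ∅`.

`M` is the union of three open sheets, each of which is an open subset of `T^* T^2`; the sheets are
thin neighbourhoods of the tracks of Hamiltonian isotopies of sections of `T^* T^2`: the first one
carries the graphs of `σ dh`, `h = -sin x + sin y`, the second one those of a path of exact forms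
from `dh` to `d(w(x) + w(y))`, `w' = (1 - 2 cos x - 2 cos² x) / 8`, and the third one is the mirror
image of the second.  The sheets are glued where they meet outside the region
`cos x > 1/8, cos y > 1/8, |p₁| < cos x / 2, |p₂| < cos y / 2`, which contains all the common points
of the zero section and the last graph, but on whose boundary the three tracks do not meet.
-/

open scoped ContDiff Manifold
open Set

namespace Pool.Agent.Results.MP_718994_gt.DisplacedTorus

open Pool.Agent.H844R2.AG

/-- There are a connected symplectic 4-manifold `(M, η)`, an anti-symplectic involution `τ` whose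
fixed point set `L` is a compact 2-torus and a Hamiltonian diffeomorphism `φ` of `(M, η)` such that
`L` and `φ(L)` meet transversally, are in fact disjoint, and `#(L ∩ φ(L)) < b(L, ℤ/2)`. -/
theorem result : ∃ (M : Type) (_ : TopologicalSpace M) (_ : ChartedSpace (ℂ × ℂ) M)
    (_ : IsManifold 𝓘(ℝ, ℂ × ℂ) ∞ M) (_ : T2Space M) (_ : SecondCountableTopology M)
    (_ : ConnectedSpace M) (η : TwoForm 𝓘(ℝ, ℂ × ℂ) M) (τ φ : M → M),
    IsSymplectic η ∧ IsAntiSymplecticInvolution η τ ∧
    {x | τ x = x}.Nonempty ∧ IsCompact {x | τ x = x} ∧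
    Nonempty ({x | τ x = x} ≃ₜ Metric.sphere (0 : ℂ) 1 × Metric.sphere (0 : ℂ) 1) ∧
    φ ∈ Ham η ∧ MeetTransversally 𝓘(ℝ, ℂ × ℂ) τ φ ∧
    {x | τ x = x} ∩ φ '' {x | τ x = x} = ∅ ∧
    Cardinal.mk ↥({x | τ x = x} ∩ φ '' {x | τ x = x}) < totalBetti {x | τ x = x} := by
  obtain ⟨D, S⟩ := exists_setup
  obtain ⟨φ, hφ, hdis⟩ := S.displace
  have hcon := S.connected
  have hhom : {x | S.tau x = x} ≃ₜ Metric.sphere (0 : ℂ) 1 × Metric.sphere (0 : ℂ) 1 :=
    S.homeo.trans torusHomeo
  have hsph : PathConnectedSpace (Metric.sphere (0 : ℂ) 1) :=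
    isPathConnected_iff_pathConnectedSpace.mp
      (isPathConnected_sphere (by rw [Complex.rank_real_complex]; norm_num) 0 (by norm_num))
  have hpath : PathConnectedSpace {x | S.tau x = x} := by
    have h1 : PathConnectedSpace (Metric.sphere (0 : ℂ) 1 × Metric.sphere (0 : ℂ) 1) :=
      inferInstance
    exact hhom.symm.surjective.pathConnectedSpace hhom.symm.continuous
  have hempty : {x | S.tau x = x} ∩ φ '' {x | S.tau x = x} = ∅ := by
    rw [Set.eq_empty_iff_forall_notMem]
    rintro _ ⟨hx, m, hm, rfl⟩
    exact hdis m hm hx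
  obtain ⟨ζ, hζ⟩ := TT_nonempty
  refine ⟨D.Sp, inferInstance, inferInstance, inferInstance, inferInstance, inferInstance, hcon,
    liftForm D.pr Om, S.tau, φ, S.symplectic, S.anti, ⟨_, S.sec_fix hζ⟩, S.compact, ⟨hhom⟩, hφ,
    fun x hx hx' => absurd hx' (hdis x hx), hempty, ?_⟩
  rw [hempty, Cardinal.mk_eq_zero]
  exact lt_of_lt_of_le one_pos (one_le_totalBetti _)

end Pool.Agent.Results.MP_718994_gt.DisplacedTorus
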